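import Pool.Agent.Helper19.Un.D4Stmts

set_option autoImplicit false

/-!
# The cusp of the Eisenstein lattice over `D₄`
-/

namespace Pool.Agent.Helper19.Un

open MeasureTheory Topology
open scoped ComplexConjugate

theorem dcusp_s3 : Real.sqrt 3 * Real.sqrt 3 = 3 := Real.mul_self_sqrt (by norm_num)

theorem dcusp_s2 : Real.sqrt 2 * Real.sqrt 2 = 2 := Real.mul_self_sqrt (by norm_num)

theorem dcusp_s2c : (Real.sqrt 2 : ℂ) * (Real.sqrt 2 : ℂ) = 2 := by
  exact_mod_cast congrArg (fun x : ℝ => (x : ℂ)) dcusp_s2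

theorem dcusp_om2 : om * om = -1 - om := by
  have h := dcusp_s3
  apply Complex.ext
  · simp only [om, Complex.mul_re, Complex.sub_re, Complex.neg_re, Complex.one_re]
    linarith
  · simp only [om, Complex.mul_im, Complex.sub_im, Complex.neg_im, Complex.one_im]
    ring

theorem dcusp_th : th = 1 + 2 * om := by
  apply Complex.ext
  · simp [om, th]
    norm_num
  · simp [om, th]
    ring

theorem dcusp_conj_om : conj om = -1 - om := by
  apply Complex.ext
  · simp only [om, Complex.conj_re, Complex.sub_re, Complex.neg_re, Complex.one_re]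
    norm_num
  · simp only [om, Complex.conj_im, Complex.sub_im, Complex.neg_im, Complex.one_im]
    ring

theorem dcusp_conj_th : conj th = -th := by
  apply Complex.ext
  · simp [th]
  · simp [th]

theorem dcusp_th2 : th * th = -3 := by
  rw [dcusp_th]
  linear_combination 4 * dcusp_om2

theorem dcusp_mul {x y : ℂ} (hx : x ∈ Eis) (hy : y ∈ Eis) : x * y ∈ Eis := by
  obtain ⟨a, b, rfl⟩ := hx
  obtain ⟨c, d, rfl⟩ := hy
  refine ⟨a * c - b * d, a * d + b * c - b * d, ?_⟩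
  push_cast
  linear_combination (b : ℂ) * d * dcusp_om2

theorem dcusp_conj {x : ℂ} (hx : x ∈ Eis) : conj x ∈ Eis := by
  obtain ⟨a, b, rfl⟩ := hx
  refine ⟨a - b, -b, ?_⟩
  rw [map_add, map_mul, dcusp_conj_om, map_intCast, map_intCast]
  push_cast
  ring

theorem dcusp_om_mem : om ∈ Eis := ⟨0, 1, by simp⟩

theorem dcusp_one_mem : (1 : ℂ) ∈ Eis := ⟨1, 0, by simp⟩

theorem dcusp_int_mem (n : ℤ) : (n : ℂ) ∈ Eis := ⟨n, 0, by simp⟩

theorem dcusp_th_mem : th ∈ Eis := ⟨1, 2, by rw [dcusp_th]; push_cast; ring⟩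

theorem dcusp_D4L {ζ : E 2} : ζ ∈ D4L ↔ ∃ Y ∈ Eis, ∃ k ∈ Eis, ζ 0 = Y + th * k ∧ ζ 1 = (Real.sqrt 2 : ℂ) * Y := by
  constructor
  · rintro ⟨X, hX, Y, hY, k, hk, h1, h2, h3⟩
    exact ⟨Y, hY, k, hk, by rw [h2]; linear_combination h1, h3⟩
  · rintro ⟨Y, hY, k, hk, h2, h3⟩
    exact ⟨Y + th * k, Eis.add_mem hY (dcusp_mul dcusp_th_mem hk), Y, hY, k, hk, by ring, h2, h3⟩

theorem dcusp_smul {s : ℂ} (hs : s ∈ Eis) {b : E 2} (hb : b ∈ D4L) : s • b ∈ D4L := by
  obtain ⟨Y, hY, k, hk, h2, h3⟩ := dcusp_D4L.1 hb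
  refine dcusp_D4L.2 ⟨s * Y, dcusp_mul hs hY, s * k, dcusp_mul hs hk, ?_, ?_⟩
  · rw [PiLp.smul_apply, smul_eq_mul, h2]
    ring
  · rw [PiLp.smul_apply, smul_eq_mul, h3]
    ring

theorem dcusp_inner_apply (b c : E 2) : inner ℂ b c = conj (b 0) * c 0 + conj (b 1) * c 1 := by
  rw [PiLp.inner_apply, Fin.sum_univ_two, RCLike.inner_apply, RCLike.inner_apply]
  ring

theorem dcusp_inner {b c : E 2} (hb : b ∈ D4L) (hc : c ∈ D4L) : ∃ z ∈ Eis, inner ℂ b c = th * z := by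
  obtain ⟨Y, hY, k, hk, h2, h3⟩ := dcusp_D4L.1 hb
  obtain ⟨Y', hY', k', hk', h2', h3'⟩ := dcusp_D4L.1 hc
  have e1 := dcusp_conj hY
  have e2 := dcusp_conj hk
  refine ⟨-(th * (conj Y * Y')) + conj Y * k' - conj k * Y' - th * (conj k * k'), ?_, ?_⟩
  · exact Eis.sub_mem (Eis.sub_mem (Eis.add_mem (Eis.neg_mem (dcusp_mul dcusp_th_mem (dcusp_mul e1 hY')))
      (dcusp_mul e1 hk')) (dcusp_mul e2 hY')) (dcusp_mul dcusp_th_mem (dcusp_mul e2 hk'))
  · rw [dcusp_inner_apply, h2, h3, h2', h3', map_add, map_mul, map_mul, dcusp_conj_th, Complex.conj_ofReal]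
    linear_combination (conj Y * Y') * dcusp_s2c + (conj Y * Y') * dcusp_th2

theorem dcusp_norm {b : E 2} (hb : b ∈ D4L) : ∃ x : ℤ, ‖b‖ ^ 2 = -3 * x := by
  obtain ⟨z, ⟨x, y, rfl⟩, hz⟩ := dcusp_inner hb hb
  rw [inner_self_c] at hz
  have h3 : (0 : ℝ) < Real.sqrt 3 := by positivity
  have h33 := dcusp_s3
  have h1 := congrArg Complex.re hz
  have h2 := congrArg Complex.im hz
  simp only [th, om, Complex.mul_re, Complex.mul_im, Complex.add_re, Complex.add_im, Complex.intCast_re,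
    Complex.intCast_im, Complex.ofReal_re, Complex.ofReal_im] at h1 h2
  have h4 : (x : ℝ) - y / 2 = 0 := by
    have : Real.sqrt 3 * ((x : ℝ) - y / 2) = 0 := by linarith
    rcases mul_eq_zero.1 this with h | h
    · exact absurd h h3.ne'
    · exact h
  refine ⟨x, ?_⟩
  rw [h1]
  have h5 : (y : ℝ) = 2 * x := by linarith
  rw [h5]
  linear_combination (-x : ℝ) * h33

theorem dcusp_re_im (x y : ℤ) : (th * ((x : ℂ) + y * om)).re = -(3 / 2) * y ∧
    (th * ((x : ℂ) + y * om)).im = Real.sqrt 3 * (x - y / 2) := by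
  have h33 := dcusp_s3
  constructor
  · simp only [th, om, Complex.mul_re, Complex.mul_im, Complex.add_re, Complex.add_im, Complex.intCast_re,
      Complex.intCast_im]
    linear_combination (-(y : ℝ) / 2) * h33
  · simp only [th, om, Complex.mul_re, Complex.mul_im, Complex.add_re, Complex.add_im, Complex.intCast_re,
      Complex.intCast_im]
    ring

theorem dcusp_sum (f : Fin (2 * 2) → E 2) : ∑ i, f i = f 0 + f 1 + f 2 + f 3 := Fin.sum_univ_four f

theorem dcusp_comb (g : Fin (2 * 2) → ℝ) : (∑ i, g i • bD4 i) 0 = (g 0 + g 1 * om) + th * (g 2 + g 3 * om) ∧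
    (∑ i, g i • bD4 i) 1 = (Real.sqrt 2 : ℂ) * (g 0 + g 1 * om) := by
  rw [dcusp_sum]
  constructor
  · simp only [PiLp.add_apply, PiLp.smul_apply, Complex.real_smul]
    simp [bD4]
    ring
  · simp only [PiLp.add_apply, PiLp.smul_apply, Complex.real_smul]
    simp [bD4]
    ring

theorem dcusp_om_ind {x y : ℝ} (h : (x : ℂ) + y * om = 0) : x = 0 ∧ y = 0 := by
  have h3 : (0 : ℝ) < Real.sqrt 3 := by positivity
  have h1 := congrArg Complex.re h
  have h2 := congrArg Complex.im h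
  simp only [om, Complex.mul_re, Complex.mul_im, Complex.add_re, Complex.add_im, Complex.ofReal_re,
    Complex.ofReal_im, Complex.zero_re, Complex.zero_im] at h1 h2
  have hy : y = 0 := by
    have : y * Real.sqrt 3 = 0 := by linarith
    rcases mul_eq_zero.1 this with h | h
    · exact h
    · exact absurd h h3.ne'
  rw [hy] at h1
  exact ⟨by linarith, hy⟩

theorem dcusp_th_ne : th ≠ 0 := by
  intro h
  have := dcusp_th2
  rw [h] at this
  norm_num at this

theorem dcusp_li : LinearIndependent ℝ bD4 := by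
  rw [Fintype.linearIndependent_iff]
  intro g hg
  obtain ⟨h0, h1⟩ := dcusp_comb g
  rw [hg] at h0 h1
  have s2 : (Real.sqrt 2 : ℂ) ≠ 0 := by
    intro h
    have := dcusp_s2c
    rw [h] at this
    norm_num at this
  have e1 : ((g 0 : ℝ) : ℂ) + g 1 * om = 0 := by
    have : (Real.sqrt 2 : ℂ) * (g 0 + g 1 * om) = 0 := h1.symm
    rcases mul_eq_zero.1 this with h | h
    · exact absurd h s2
    · exact h
  have e2 : ((g 2 : ℝ) : ℂ) + g 3 * om = 0 := by
    have h00 : (0 : ℂ) = (g 0 + g 1 * om) + th * (g 2 + g 3 * om) := h0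
    rw [e1, zero_add] at h00
    rcases mul_eq_zero.1 h00.symm with h | h
    · exact absurd h dcusp_th_ne
    · exact h
  obtain ⟨a0, a1⟩ := dcusp_om_ind e1
  obtain ⟨a2, a3⟩ := dcusp_om_ind e2
  intro i
  fin_cases i
  · exact a0
  · exact a1
  · exact a2
  · exact a3

theorem dcusp_zero_mem : (0 : E 2) ∈ D4L := D4L.zero_mem

theorem dcusp_Cusp : Cusp ND4 bD4 (Real.sqrt 3) where
  cpos := by positivity
  li := dcusp_li
  norm := fun a b h => h.2.2
  mul := by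
    rintro a b a' b' ⟨⟨x, hx, h1⟩, h2, h3⟩ ⟨⟨x', hx', h1'⟩, h2', h3'⟩
    obtain ⟨z, hz, hi⟩ := dcusp_inner h2 h2'
    refine ⟨⟨x + x' - z, Eis.sub_mem (Eis.add_mem hx hx') hz, ?_⟩, D4L.add_mem h2 h2', ?_⟩
    · rw [h1, h1', hi]
      ring
    · rw [norm_add_sq_c, Complex.sub_re, Complex.add_re]
      linarith
  inv := by
    rintro a b ⟨⟨x, hx, h1⟩, h2, h3⟩
    refine ⟨⟨-conj x, Eis.neg_mem (dcusp_conj hx), ?_⟩, D4L.neg_mem h2, ?_⟩
    · rw [h1, map_mul, dcusp_conj_th]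
      ring
    · rw [Complex.conj_re, norm_neg]
      exact h3
  lat := by
    intro b
    constructor
    · rintro ⟨a, _, h2, _⟩
      obtain ⟨Y, ⟨y0, y1, rfl⟩, k, ⟨k0, k1, rfl⟩, e0, e1⟩ := dcusp_D4L.1 h2
      refine ⟨![y0, y1, k0, k1], ?_⟩
      obtain ⟨c0, c1⟩ := dcusp_comb (fun i => ((![y0, y1, k0, k1] : Fin 4 → ℤ) i : ℝ))
      ext i
      fin_cases i
      · refine e0.trans (Eq.trans ?_ c0.symm)
        simp
      · refine e1.trans (Eq.trans ?_ c1.symm)
        simp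
    · rintro ⟨k, hk⟩
      obtain ⟨c0, c1⟩ := dcusp_comb (fun i => (k i : ℝ))
      have hb : b ∈ D4L := by
        refine dcusp_D4L.2 ⟨k 0 + k 1 * om, ⟨k 0, k 1, rfl⟩, k 2 + k 3 * om, ⟨k 2, k 3, rfl⟩, ?_, ?_⟩
        · rw [hk, c0]
          push_cast
          rfl
        · rw [hk, c1]
          push_cast
          rfl
      obtain ⟨x, hx⟩ := dcusp_norm hb
      refine ⟨th * (((0 : ℤ) : ℂ) + ((-x : ℤ) : ℂ) * om), ⟨_, ⟨0, -x, rfl⟩, rfl⟩, hb, ?_⟩
      rw [(dcusp_re_im 0 (-x)).1, hx]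
      push_cast
      ring
  cen := by
    intro a
    constructor
    · rintro ⟨⟨_, ⟨x, y, rfl⟩, h1⟩, _, h3⟩
      have r := dcusp_re_im x y
      rw [norm_zero] at h3
      rw [h1, r.1] at h3
      have hy : (y : ℝ) = 0 := by linarith
      refine ⟨x, ?_⟩
      rw [h1]
      apply Complex.ext
      · rw [r.1, hy]
        simp
      · rw [r.2, hy]
        simp
        ring
    · rintro ⟨k, rfl⟩
      refine ⟨⟨k, dcusp_int_mem k, ?_⟩, dcusp_zero_mem, ?_⟩
      · apply Complex.ext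
        · simp [th]
        · simp [th]
          ring
      · simp

theorem dcusp_T_MD4 {a : ℂ} {b : E 2} (h : ND4 a b) {x : V 2} (hx : x ∈ MD4) : T a b x ∈ MD4 := by
  obtain ⟨⟨a', ha', e⟩, hb, _⟩ := h
  obtain ⟨⟨x1, hx1, e1⟩, hx2, hx3⟩ := hx
  obtain ⟨z, hz, ei⟩ := dcusp_inner hb hx2
  rw [T_apply]
  refine ⟨⟨x1 - z + a' * x.2.2, Eis.add_mem (Eis.sub_mem hx1 hz) (dcusp_mul ha' hx3), ?_⟩,
    D4L.add_mem hx2 (dcusp_smul hx3 hb), hx3⟩
  show x.1 - inner ℂ b x.2.1 + a * x.2.2 = th * (x1 - z + a' * x.2.2)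
  rw [e1, ei, e]
  ring

theorem dcusp_Gam (a : ℂ) (b : E 2) (h : ND4 a b) : T a b ∈ Gam MD4 := by
  refine ⟨T_mem_UG h.2.2, fun x => ⟨fun hx => ?_, fun hx => dcusp_T_MD4 h hx⟩⟩
  have hi := dcusp_Cusp.inv a b h
  have h1 := dcusp_T_MD4 hi hx
  have e : T (conj a) (-b) * T a b = 1 := by
    rw [T_mul]
    have e1 : conj a + a - inner ℂ (-b) b = 0 := by
      rw [inner_neg_left]
      linear_combination add_conj_of h.2.2
    rw [e1, neg_add_cancel]
    refine LinearEquiv.ext fun y => ?_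
    rw [T_apply]
    refine Prod.ext ?_ (Prod.ext ?_ rfl)
    · show y.1 - inner ℂ (0 : E 2) y.2.1 + 0 * y.2.2 = y.1
      rw [inner_zero_left]
      ring
    · show y.2.1 + y.2.2 • (0 : E 2) = y.2.1
      rw [smul_zero, add_zero]
  have e2 : T (conj a) (-b) (T a b x) = x := by
    rw [← LinearEquiv.mul_apply, e]
    rfl
  rw [e2] at h1
  exact h1

theorem st_DCUSP : ST_DCUSP := ⟨dcusp_Cusp, dcusp_Gam⟩

end Pool.Agent.Helper19.Un
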