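import Pool.Agent.Helper19.Un.D4Stmts

set_option autoImplicit false

/-!
# Two central translates together
-/

namespace Pool.Agent.Helper19.Un

/-- the key inequality, without denominators; `s = 4 u (2 - u)`, `r = 4 u (2 + u)` -/
theorem lowf_key {D K u : ℝ} (hD : 16 ≤ D) (hK : K ≤ 80) (hDK : D ≤ K) (hu0 : 0 ≤ u) (hu1 : u ≤ 1)
    (hK2 : K ≤ D + 4 * u * (2 + u)) :
    7 / 5 * (K / D - 1) ≤ K / (D - 4 * u * (2 - u)) - 1 := by
  have hs0 : 0 ≤ 4 * u * (2 - u) := mul_nonneg (by linarith) (by linarith)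
  have hs4 : 4 * u * (2 - u) ≤ 4 := by nlinarith [sq_nonneg (1 - u)]
  have hD1 : 0 < D - 4 * u * (2 - u) := by linarith
  have hD0 : 0 < D := by linarith
  have hD80 : D ≤ 80 := hDK.trans hK
  have e1 : K * (2 * D - 7 * (4 * u * (2 - u))) ≤ 2 * D * (D - 4 * u * (2 - u)) := by
    have a1 : K * (2 * D - 7 * (4 * u * (2 - u)))
        ≤ (D + 4 * u * (2 + u)) * (2 * D - 7 * (4 * u * (2 - u))) :=
      mul_le_mul_of_nonneg_right hK2 (by linarith)
    have a2 : D * (4 * u * (7 * u - 6)) ≤ 112 * u ^ 2 * (4 - u ^ 2) := by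
      rcases le_total (7 * u) 6 with h | h
      · have b1 : D * (4 * u * (7 * u - 6)) ≤ 0 :=
          mul_nonpos_of_nonneg_of_nonpos hD0.le (mul_nonpos_of_nonneg_of_nonpos (by linarith) (by linarith))
        have b2 : 0 ≤ 112 * u ^ 2 * (4 - u ^ 2) := mul_nonneg (by positivity) (by nlinarith)
        linarith
      · have b1 : D * (4 * u * (7 * u - 6)) ≤ 80 * (4 * u * (7 * u - 6)) :=
          mul_le_mul_of_nonneg_right hD80 (mul_nonneg (by linarith) (by linarith))
        have b2 : 28 * u ^ 3 + 448 * u - 480 ≤ 0 := by nlinarith [mul_nonneg hu0 hu0, mul_nonneg hu0 (mul_nonneg hu0 hu0), sq_nonneg u, mul_nonneg (mul_nonneg hu0 hu0) (sub_nonneg.2 hu1), mul_nonneg hu0 (sub_nonneg.2 hu1)]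
        have b3 : 80 * (4 * u * (7 * u - 6)) - 112 * u ^ 2 * (4 - u ^ 2) = 4 * u * (28 * u ^ 3 + 448 * u - 480) := by
          ring
        have b4 : 4 * u * (28 * u ^ 3 + 448 * u - 480) ≤ 0 := mul_nonpos_of_nonneg_of_nonpos (by linarith) b2
        linarith
    nlinarith [a1, a2]
  have e2 : K / (D - 4 * u * (2 - u)) - 1 - 7 / 5 * (K / D - 1)
      = (2 * D * (D - 4 * u * (2 - u)) - K * (2 * D - 7 * (4 * u * (2 - u)))) / (5 * D * (D - 4 * u * (2 - u))) := by
    field_simp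
    ring
  have e3 : 0 ≤ K / (D - 4 * u * (2 - u)) - 1 - 7 / 5 * (K / D - 1) := by
    rw [e2]
    exact div_nonneg (by linarith) (by positivity)
  linarith

theorem st_LOWF : ST_LOWF := by
  intro A K v hA hK0 hK hv
  set u := 1 - |v| with hu
  have hu0 : 0 ≤ u := by linarith
  have hu1 : u ≤ 1 := by linarith [abs_nonneg v]
  set D := A + 4 with hD
  have hD16 : 16 ≤ D := by linarith
  have e1 : A + 4 * v ^ 2 = D - 4 * u * (2 - u) := by
    have : v ^ 2 = |v| ^ 2 := (sq_abs v).symm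
    rw [this, hu, hD]
    ring
  have e2 : A + 4 * (2 - |v|) ^ 2 = D + 4 * u * (2 + u) := by
    rw [hu, hD]
    ring
  rw [e1, e2]
  have hs0 : 0 ≤ 4 * u * (2 - u) := mul_nonneg (by linarith) (by linarith)
  have hs4 : 4 * u * (2 - u) ≤ 4 := by nlinarith [sq_nonneg (1 - u)]
  have hr0 : 0 ≤ 4 * u * (2 + u) := mul_nonneg (by linarith) (by linarith)
  have hD1 : 0 < D - 4 * u * (2 - u) := by linarith
  have hD2 : 0 < D + 4 * u * (2 + u) := by linarith
  have hD0 : 0 < D := by linarith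
  rcases le_total K D with h | h
  · have : K / D - 1 ≤ 0 := by
      rw [sub_nonpos, div_le_one hD0]
      exact h
    rw [max_eq_left this, mul_zero]
    exact add_nonneg (le_max_left _ _) (le_max_left _ _)
  have hp : 0 ≤ K / D - 1 := by
    rw [sub_nonneg, le_div_iff₀ hD0, one_mul]
    exact h
  rw [max_eq_right hp]
  rcases le_total K (D + 4 * u * (2 + u)) with h2 | h2
  · have k := lowf_key hD16 hK h hu0 hu1 h2
    have := le_max_right 0 (K / (D - 4 * u * (2 - u)) - 1)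
    have := le_max_left 0 (K / (D + 4 * u * (2 + u)) - 1)
    linarith
  · have k := lowf_key hD16 (h2.trans hK) (by linarith) hu0 hu1 le_rfl
    have k2 : 7 / (5 * D) ≤ 1 / (D - 4 * u * (2 - u)) + 1 / (D + 4 * u * (2 + u)) := by
      rw [div_add_div _ _ hD1.ne' hD2.ne', div_le_div_iff₀ (by positivity) (by positivity)]
      nlinarith [mul_nonneg hu0 hu0, mul_nonneg hs0 hr0, mul_nonneg hD0.le (mul_nonneg hu0 hu0), mul_nonneg (sub_nonneg.2 hD16) hD0.le, mul_nonneg (mul_nonneg hu0 hu0) (sub_nonneg.2 hD16), mul_nonneg hu0 (sub_nonneg.2 hu1)]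
    have k3 : 0 ≤ (K - (D + 4 * u * (2 + u))) *
        (1 / (D - 4 * u * (2 - u)) + 1 / (D + 4 * u * (2 + u)) - 7 / (5 * D)) :=
      mul_nonneg (by linarith) (by linarith)
    have a1 := le_max_right 0 (K / (D - 4 * u * (2 - u)) - 1)
    have a2 := le_max_right 0 (K / (D + 4 * u * (2 + u)) - 1)
    have e3 : K / (D - 4 * u * (2 - u)) - 1 + (K / (D + 4 * u * (2 + u)) - 1) - 7 / 5 * (K / D - 1)
        = ((D + 4 * u * (2 + u)) / (D - 4 * u * (2 - u)) - 1 - 7 / 5 * ((D + 4 * u * (2 + u)) / D - 1))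
        + (K - (D + 4 * u * (2 + u))) *
        (1 / (D - 4 * u * (2 - u)) + 1 / (D + 4 * u * (2 + u)) - 7 / (5 * D)) := by
      field_simp
      ring
    linarith

end Pool.Agent.Helper19.Un
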